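import Mathlib

namespace Pool.Agent.H.MP_33d24b_co

open Finset

/-- recursively partitionable vertex sets, with a bound on the recursion depth -/
def RPn {V : Type} (G : SimpleGraph V) : ℕ → Finset V → Prop
  | 0, _ => False
  | f + 1, S => S.card = 1 ∨ ((G.induce (S : Set V)).Connected ∧
      ∀ L : List ℕ, 2 ≤ L.length → (∀ a ∈ L, 0 < a) → L.sum = S.card →
        ∃ A : List (Finset V), A.map Finset.card = L ∧ A.Pairwise Disjoint ∧
          (∀ v, v ∈ S ↔ ∃ B ∈ A, v ∈ B) ∧ ∀ B ∈ A, RPn G f B)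

/-- recursively partitionable graphs -/
def RP {V : Type} [Fintype V] (G : SimpleGraph V) : Prop := ∃ f, RPn G f Finset.univ

/-- vertices of class none are universal, the other classes are cliques -/
def gr {V ι : Type} (cl : V → Option ι) : SimpleGraph V where
  Adj u v := u ≠ v ∧ (cl u = none ∨ cl v = none ∨ cl u = cl v)
  symm := ⟨fun _ _ h => ⟨h.1.symm, by have := h.2; tauto⟩⟩
  loopless := ⟨fun _ h => h.1 rfl⟩

/-- the semistar with centre of order c and cliques of orders b i -/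
def semistar (c : ℕ) {k : ℕ} (b : Fin k → ℕ) : SimpleGraph (Fin c ⊕ (Σ i : Fin k, Fin (b i))) :=
  gr (Sum.elim (fun _ => none) fun x => some x.1)

def sm (x : ℕ × ℕ) : ℕ := x.1 + x.2

def Num : ℕ → ℕ → List ℕ → Prop
  | 0, _, _ => False
  | f + 1, c, l => (c ≠ 0 ∨ l.Pairwise fun x y => x = 0 ∨ y = 0) ∧
      ∀ a, 0 < a → a < c + l.sum → ∃ c1 c2, ∃ p : List (ℕ × ℕ), c1 + c2 = c ∧ p.map sm = l ∧
        c1 + (p.map Prod.fst).sum = a ∧ Num f c1 (p.map Prod.fst) ∧ Num f c2 (p.map Prod.snd)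

lemma lift {α β : Type} [DecidableEq α] (f : α → β) :
    ∀ (l : List β) (p : List α), l.Perm (p.map f) → ∃ q : List α, q.Perm p ∧ q.map f = l
  | [], p, h => ⟨p, .refl _, h.symm.eq_nil⟩
  | b :: l, p, h => by
    obtain ⟨x, hx, rfl⟩ := List.mem_map.1 (h.subset List.mem_cons_self)
    have h1 := List.perm_cons_erase hx
    obtain ⟨q, h2, h3⟩ := lift f l (p.erase x) (h.trans (h1.map f)).cons_inv
    exact ⟨x :: q, (h2.cons x).trans h1.symm, by simp [h3]⟩

lemma Num.perm : ∀ {f c : ℕ} {l l' : List ℕ}, l'.Perm l → Num f c l → Num f c l'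
  | 0, _, _, _, _, h => h
  | f + 1, c, l, l', e, h => by
    refine ⟨h.1.imp_right fun h => (e.pairwise_iff fun h => h.symm).2 h, fun a h1 h2 => ?_⟩
    obtain ⟨c1, c2, p, a1, rfl, a3, a4, a5⟩ := h.2 a h1 (e.sum_eq ▸ h2)
    obtain ⟨q, b1, b2⟩ := lift sm l' p e
    exact ⟨c1, c2, q, a1, b2, by rw [(b1.map _).sum_eq, a3], a4.perm (b1.map _), a5.perm (b1.map _)⟩

lemma num_zero : ∀ {f c : ℕ} {l : List ℕ}, Num f c (0 :: l) ↔ Num f c l
  | 0, _, _ => Iff.rfl
  | f + 1, c, l => by
    refine and_congr (by simp) (forall₂_congr fun a _ => imp_congr (by simp) ⟨?_, ?_⟩)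
    · rintro ⟨c1, c2, p, a1, a2, a3, a4, a5⟩
      obtain ⟨⟨x, y⟩, q, rfl, b1, b2⟩ := List.map_eq_cons_iff.1 a2
      obtain ⟨rfl, rfl⟩ : x = 0 ∧ y = 0 := by simpa [sm] using b1
      exact ⟨c1, c2, q, a1, b2, by simpa using a3, num_zero.1 a4, num_zero.1 a5⟩
    · rintro ⟨c1, c2, p, a1, a2, a3, a4, a5⟩
      exact ⟨c1, c2, (0, 0) :: p, a1, by simp [a2, sm], by simpa using a3, num_zero.2 a4,
        num_zero.2 a5⟩

def nz (l : List ℕ) : List ℕ := l.filter (· != 0)

lemma num_nz {f c : ℕ} {l : List ℕ} : Num f c (nz l) ↔ Num f c l := by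
  have h : ∀ z : List ℕ, (∀ x ∈ z, x = 0) → (Num f c (z ++ nz l) ↔ Num f c (nz l)) := by
    intro z hz
    induction z with
    | nil => rfl
    | cons x z ih =>
      rw [hz x (by simp), List.cons_append, num_zero, ih fun y hy => hz y (by simp [hy])]
  have e : (l.filter (fun x => !(x != 0)) ++ nz l).Perm l :=
    List.perm_append_comm.trans (List.filter_append_perm _ l)
  rw [← h (l.filter fun x => !(x != 0)) (by simp)]
  exact ⟨fun h => h.perm e.symm, fun h => h.perm e⟩

variable {V : Type} [DecidableEq V] {k : ℕ} (cl : V → Option (Fin k))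

def cnt (S : Finset V) (o : Option (Fin k)) : ℕ := #{v ∈ S | cl v = o}

def lst (S : Finset V) : List ℕ := List.ofFn fun j => cnt cl S (some j)

omit [DecidableEq V] in
lemma card_eq (S : Finset V) : #S = cnt cl S none + (lst cl S).sum := by
  rw [card_eq_sum_card_fiberwise (f := cl) (t := univ) (fun _ _ => mem_univ _),
    Fintype.sum_option, lst, List.sum_ofFn]
  rfl

lemma cnt_add {S A B : Finset V} (h : Disjoint A B) (hS : ∀ v, v ∈ S ↔ v ∈ A ∨ v ∈ B)
    (o : Option (Fin k)) : cnt cl A o + cnt cl B o = cnt cl S o := by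
  unfold cnt
  rw [← card_union_of_disjoint (disjoint_filter_filter h), ← filter_union]
  congr 2
  ext v
  simp [hS]

lemma to_num : ∀ f S, RPn (gr cl) f S → Num f (cnt cl S none) (lst cl S)
  | 0, _, h => h
  | f + 1, S, h => by
    have hc := card_eq cl S
    have pw : (∀ u ∈ S, ∀ v ∈ S, cl u = cl v) → (lst cl S).Pairwise fun x y => x = 0 ∨ y = 0 := by
      intro h
      refine List.pairwise_ofFn.2 fun i j hij => ?_
      by_contra hn
      push Not at hn
      obtain ⟨u, hu⟩ := card_ne_zero.1 hn.1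
      obtain ⟨v, hv⟩ := card_ne_zero.1 hn.2
      rw [mem_filter] at hu hv
      have := h u hu.1 v hv.1
      rw [hu.2, hv.2] at this
      exact hij.ne (Option.some.inj this)
    rcases h with h | ⟨h1, h2⟩
    · refine ⟨Or.inr (pw fun u hu v hv => ?_), fun a h1 h2 => by omega⟩
      rw [card_le_one.1 h.le u hu v hv]
    refine ⟨or_iff_not_imp_left.2 fun h0 => pw fun u hu v hv => ?_, fun a a1 a2 => ?_⟩
    · have hn : ∀ x : (S : Set V), cl x ≠ none := fun x hx =>
        h0 (card_ne_zero.2 ⟨x, mem_filter.2 ⟨x.2, hx⟩⟩)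
      obtain ⟨w⟩ := h1.preconnected ⟨u, hu⟩ ⟨v, hv⟩
      have : ∀ x y (w : ((gr cl).induce (S : Set V)).Walk x y), cl x = cl y := by
        intro x y w
        induction w with
        | nil => rfl
        | cons h _ ih => exact ((h.2.resolve_left (hn _)).resolve_left (hn _)).trans ih
      exact this _ _ w
    · obtain ⟨A, b1, b2, b3, b4⟩ := h2 [a, #S - a] (by simp) (by simp; omega) (by simp; omega)
      obtain ⟨X, A, rfl, c1, c2⟩ := List.map_eq_cons_iff.1 b1
      obtain ⟨Y, A, rfl, c3, c4⟩ := List.map_eq_cons_iff.1 c2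
      obtain rfl := List.map_eq_nil_iff.1 c4
      have d := cnt_add cl (S := S) (A := X) (B := Y) (by simpa using b2) (by simpa using b3)
      refine ⟨_, _, List.ofFn fun j => (cnt cl X (some j), cnt cl Y (some j)), d none, ?_, ?_,
        ?_, ?_⟩
      · simp [lst, List.map_ofFn, Function.comp_def, sm, d]
      · rw [← c1, card_eq cl X, List.map_ofFn]; rfl
      · rw [List.map_ofFn]; exact to_num f X (b4 X (by simp))
      · rw [List.map_ofFn]; exact to_num f Y (b4 Y (by simp))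

lemma split {S : Finset V} {g a : ℕ} (h : Num g (cnt cl S none) (lst cl S)) (h1 : 0 < a)
    (h2 : a < #S) : ∃ X ⊆ S, #X = a ∧ (∃ g, Num g (cnt cl X none) (lst cl X)) ∧
      ∃ g, Num g (cnt cl (S \ X) none) (lst cl (S \ X)) := by
  obtain _ | g := g
  · exact h.elim
  obtain ⟨c1, c2, p, a1, a2, a3, a4, a5⟩ := h.2 a h1 (card_eq cl S ▸ h2)
  have hl : p.length = k := by simpa [lst] using congrArg List.length a2
  obtain ⟨q, rfl⟩ : ∃ q : Fin k → ℕ × ℕ, p = List.ofFn q := by
    subst hl; exact ⟨p.get, (List.ofFn_get p).symm⟩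
  rw [List.map_ofFn] at a2 a3 a4 a5
  have a6 := congrFun (List.ofFn_injective a2)
  let w : Option (Fin k) → ℕ × ℕ := fun o => o.elim (c1, c2) q
  have hw : ∀ o, (w o).1 + (w o).2 = cnt cl S o := by
    rintro (_ | j)
    · exact a1
    · exact a6 j
  choose T T1 T2 using fun o => exists_subset_card_eq (s := {v ∈ S | cl v = o}) (n := (w o).1)
    (by have := hw o; unfold cnt at this; omega)
  have e1 : ∀ o, cnt cl {v ∈ S | v ∈ T (cl v)} o = (w o).1 := fun o => by
    rw [← T2]
    unfold cnt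
    congr 1
    ext v
    simp only [mem_filter]
    refine ⟨fun h => h.2 ▸ h.1.2, fun h => ?_⟩
    have := mem_filter.1 (T1 o h)
    exact ⟨⟨this.1, this.2 ▸ h⟩, this.2⟩
  have e2 : ∀ o, cnt cl (S \ {v ∈ S | v ∈ T (cl v)}) o = (w o).2 := fun o => by
    have := cnt_add cl (S := S) (A := {v ∈ S | v ∈ T (cl v)}) disjoint_sdiff
      (fun v => by simp only [mem_sdiff, mem_filter]; tauto) o
    have := hw o
    have := e1 o
    omega
  refine ⟨{v ∈ S | v ∈ T (cl v)}, filter_subset _ _, ?_, ⟨g, ?_⟩, g, ?_⟩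
  · rw [card_eq cl, lst]; simp only [e1]; exact a3
  · rw [lst]; simp only [e1]; exact a4
  · rw [lst]; simp only [e2]; exact a5

lemma parts : ∀ (L : List ℕ) (S : Finset V), L ≠ [] → (∀ a ∈ L, 0 < a) → L.sum = #S →
    (∃ g, Num g (cnt cl S none) (lst cl S)) → ∃ A : List (Finset V), A.map card = L ∧
      A.Pairwise Disjoint ∧ (∀ v, v ∈ S ↔ ∃ B ∈ A, v ∈ B) ∧
      ∀ B ∈ A, ∃ g, Num g (cnt cl B none) (lst cl B)
  | [], _, h, _, _, _ => absurd rfl h
  | [a], S, _, _, h2, h3 => ⟨[S], by simpa using h2.symm, by simp, by simp, by simpa using h3⟩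
  | a :: b :: L, S, _, h1, h2, ⟨g, h3⟩ => by
    have := h1 b (by simp)
    simp only [List.sum_cons] at h2
    obtain ⟨X, x1, x2, x3, x4⟩ := split cl h3 (h1 a (by simp)) (by omega)
    obtain ⟨A, a1, a2, a3, a4⟩ := parts (b :: L) (S \ X) (by simp)
      (fun y hy => h1 y (List.mem_cons_of_mem _ hy))
      (by rw [card_sdiff_of_subset x1, List.sum_cons]; omega) x4
    refine ⟨X :: A, by simp [a1, x2], List.pairwise_cons.2 ⟨fun B hB => ?_, a2⟩, fun v => ?_,
      by simpa using ⟨x3, a4⟩⟩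
    · exact disjoint_left.2 fun v hv hv' => (mem_sdiff.1 ((a3 v).2 ⟨B, hB, hv'⟩)).2 hv
    · have : v ∈ X → v ∈ S := fun h => x1 h
      simp only [List.mem_cons, exists_eq_or_imp, ← a3, mem_sdiff]
      tauto

lemma of_num : ∀ f (S : Finset V), #S ≤ f → S.Nonempty → (∃ g, Num g (cnt cl S none) (lst cl S)) →
    RPn (gr cl) f S
  | 0, S, h, h', _ => by have := h'.card_pos; omega
  | f + 1, S, h, h', ⟨g, hg⟩ => by
    refine Or.inr ⟨?_, fun L l1 l2 l3 => ?_⟩
    · obtain _ | g := g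
      · exact hg.elim
      have r : ∀ x y : (S : Set V), (cl x = none ∨ cl y = none ∨ cl x = cl y) →
          ((gr cl).induce (S : Set V)).Reachable x y := fun x y hxy => by
        by_cases e : x = y
        · rw [e]
        · exact SimpleGraph.Adj.reachable ⟨fun h => e (Subtype.ext h), hxy⟩
      obtain ⟨s, hs⟩ := h'
      have : Nonempty (S : Set V) := ⟨⟨s, hs⟩⟩
      refine ⟨fun x y => ?_⟩
      rcases hg.1 with h0 | h0
      · obtain ⟨z, hz⟩ := card_ne_zero.1 h0
        rw [mem_filter] at hz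
        exact (r x ⟨z, hz.1⟩ (Or.inr (Or.inl hz.2))).trans (r _ y (Or.inl hz.2))
      · refine r x y ?_
        rcases hx : cl x with _ | i
        · simp
        rcases hy : cl y with _ | j
        · simp
        have n1 : cnt cl S (some i) ≠ 0 := card_ne_zero.2 ⟨x, mem_filter.2 ⟨x.2, hx⟩⟩
        have n2 : cnt cl S (some j) ≠ 0 := card_ne_zero.2 ⟨y, mem_filter.2 ⟨y.2, hy⟩⟩
        rcases lt_trichotomy i j with h | h | h
        · exact absurd (List.pairwise_ofFn.1 h0 h) (by tauto)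
        · simp [h]
        · exact absurd (List.pairwise_ofFn.1 h0 h) (by tauto)
    · obtain ⟨A, a1, a2, a3, a4⟩ := parts cl L S (by rintro rfl; simp at l1) l2 l3 ⟨g, hg⟩
      refine ⟨A, a1, a2, a3, fun B hB => ?_⟩
      have hB' : #B ∈ L := a1 ▸ List.mem_map_of_mem hB
      refine of_num f B ?_ (card_pos.1 (l2 _ hB')) (a4 B hB)
      obtain ⟨s, t, rfl⟩ := List.append_of_mem hB'
      have : 0 < (s ++ t).sum := List.sum_pos _ (fun x hx => l2 x (by
        simp only [List.mem_append, List.mem_cons] at hx ⊢; tauto)) (by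
        rintro h; rw [List.append_eq_nil_iff] at h; simp [h.1, h.2] at l1)
      simp only [List.sum_append, List.sum_cons] at this l3
      omega

lemma semi {c : ℕ} (hc : 0 < c) (b : Fin k → ℕ) :
    RP (semistar c b) ↔ ∃ g, Num g c (List.ofFn b) := by
  classical
  set cl : Fin c ⊕ (Σ i : Fin k, Fin (b i)) → Option (Fin k) :=
    Sum.elim (fun _ => none) fun x => some x.1
  have e1 : cnt cl univ none = c := by
    simp only [cnt, card_filter, Fintype.sum_sum_type, cl, Sum.elim_inl, Sum.elim_inr]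
    simp
  have e2 : lst cl univ = List.ofFn b := by
    unfold lst
    congr 1
    funext j
    simp only [cnt, card_filter, Fintype.sum_sum_type, Fintype.sum_sigma, cl, Sum.elim_inl,
      Sum.elim_inr, Option.some.injEq]
    simp [apply_ite card]
  constructor
  · rintro ⟨f, h⟩
    have := to_num cl f _ h
    rw [e1, e2] at this
    exact ⟨f, this⟩
  · intro h
    rw [← e1, ← e2] at h
    exact ⟨_, of_num cl _ _ le_rfl ⟨Sum.inl ⟨0, hc⟩, mem_univ _⟩ h⟩

end Pool.Agent.H.MP_33d24b_co
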