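import Pool.Agent.H.MP_33d24b_co.A

namespace Pool.Agent.H.MP_33d24b_co

noncomputable section

def force (n : ℕ) (k : ℕ → Bool) : Bool := Nat.casesOn n (k 0) fun m => k m.succ

def allN (n : ℕ) (f : ℕ → Bool) : Bool := Nat.rec true (fun i r => r && f i) n

def anyN (n : ℕ) (f : ℕ → Bool) : Bool := Nat.rec false (fun i r => r || f i) n

def tb (m i : ℕ) : Bool := Nat.beq (Nat.land (Nat.shiftRight m i) 1) 1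

def wt (x : ℕ) : ℕ := Nat.shiftLeft 1 (Nat.mul 3 x)

def m13 : ℕ := 0x1000000000000000000000000080000000000200000000000800000000000000000000000000000000080000904000088000000000004000200000000000000000000080008000000008000080000000000200000000000000000000800000000000000000000000000000000000400000000000004000000000008000000000000880000000000008000001000000000000000000000000000000000000000000000000000011000000000000000000000000000000000002000000000000000000000000000000000000000000000000002002000000000210000000001000000000000051000000000004000400000004000000000000100000000000000000000000000000020000000200000200001002000000000010000000000000040000000000000000000000000000000400000000000000100000000000000000000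

def m25 : ℕ := 0x800000000000108000000000000004000000000000000000000000000000000000000000400000000000000000000000000000000000000000000000000000000000004000000000000000000000000000000000000000000000000000002000080000000000100000000000001000000000000000000000000000000200000000000000000000000000000800000000000000000000004000000100000000000001000000000000004000001000000000000000000000000000000000000040000200000000400000000004000000400000000002804000000001000000000000000040000080004000200000800000000000000000000800020000000008400200000000000080000000000100000000000002800000000000000000000000000000001000000000000000000000000200000000000800000000000008000000000000000000000000000100000020000000000000200000000000002000000040000000000000000000080000000000000000000000000000000000000000010000000000000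00000000000002000000000000020200000000000200000000000000000000020000004000000000000040020000000000000000000040081000000000000000000000000000000000000004000200000000040000000000000000000000000000004000000000002040000000004000000000000040000000000000000000000080000800000000800008040000000000000000000000000000000000000000000000000000000000040000000000000000000000000000000000000000000000000000000000000000000001000000008000010100000000000000000100000000000000000000040000000000000000000000020000000000000000040400000000000000000000000000010000000000100100000000000000000000000000000000000000002000000000000000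

def N (c L s g : ℕ) : Bool :=
  Nat.casesOn c (Nat.ble L 1) fun c => Nat.casesOn c
    (Nat.ble L 2 || (Nat.beq L 3 && (Nat.ble 27 s || tb m13 (Nat.mod g 2581)))) fun c =>
    Nat.casesOn c
    (Nat.ble L 4 || (Nat.beq L 5 && (Nat.ble 25 s || tb m25 (Nat.mod g 5617)))) fun _ =>
    Nat.ble L 7 || (Nat.beq L 8 && (Nat.beq s 20 || Nat.beq s 26))

def lim (c : ℕ) : ℕ :=
  Nat.casesOn c 1 fun c => Nat.casesOn c 3 fun c => Nat.casesOn c 5 fun _ => 8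

def ex (test : ℕ → ℕ → ℕ → ℕ → Bool) (l : List ℕ) : ℕ → ℕ → ℕ → ℕ → ℕ → ℕ → Bool :=
  List.rec (fun _ rem k1 k2 g1 g2 => Nat.beq rem 0 && test k1 k2 g1 g2)
    (fun b _ ih sl rem k1 k2 g1 g2 =>
      (Nat.casesOn k2 false fun k2' => force (Nat.add g2 (wt b)) fun g => ih sl rem k1 k2' g1 g) ||
      (Nat.casesOn k1 false fun k1' => (Nat.ble b rem && force (Nat.sub rem b) fun r =>
        force (Nat.add g1 (wt b)) fun g => ih sl r k1' k2 g g2) ||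
        (Nat.casesOn k2 false fun k2' => Nat.casesOn sl false fun sl' =>
          anyN b fun t => Nat.ble 1 t && Nat.ble t rem && force (Nat.sub rem t) fun r =>
            force (Nat.add g1 (wt t)) fun g => force (Nat.add g2 (wt (Nat.sub b t))) fun g' =>
              ih sl' r k1' k2' g g'))) l

def spl (c : ℕ) (l : List ℕ) (L s a : ℕ) : Bool :=
  anyN c.succ fun c1 => Nat.ble c1 a && force (Nat.sub c c1) fun c2 => force (lim c1) fun l1 =>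
    force (lim c2) fun l2 => Nat.ble L (Nat.add l1 l2) && force (Nat.sub a c1) fun s1 =>
      force (Nat.sub s s1) fun s2 => force (Nat.sub (Nat.add l1 l2) L) fun sl =>
        ex (fun k1 k2 g1 g2 => N c1 (Nat.sub l1 k1) s1 g1 && N c2 (Nat.sub l2 k2) s2 g2)
          l sl s1 l1 l2 0 0

def sumL (l : List ℕ) : ℕ := List.rec 0 (fun b _ r => Nat.add b r) l

def sig (l : List ℕ) : ℕ := List.rec 0 (fun b _ r => Nat.add (wt b) r) l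

def badAt (c : ℕ) (l : List ℕ) (L s a : ℕ) : Bool :=
  Nat.ble 1 a && Nat.blt a (Nat.add c s) && !spl c l L s a

def leaf (c L : ℕ) (l : List ℕ) (u1 u2 u3 : ℕ) : Bool :=
  force (sumL l) fun s => N c L s (sig l) || badAt c l L s u1 || badAt c l L s u2 ||
    badAt c l L s u3 || anyN (Nat.add c s) (badAt c l L s)

def bits (c K L s g : ℕ) : ℕ :=
  Nat.rec 0 (fun c1 r => cond (Nat.ble K (Nat.add L (lim (Nat.sub c c1))) && N c1 L s g)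
    (Nat.lor r (Nat.shiftLeft 1 (Nat.add c1 s))) r) c.succ

def msk (c K : ℕ) (l : List ℕ) : ℕ → ℕ → ℕ → ℕ :=
  List.rec (bits c K) (fun b _ ih L s g =>
    Nat.lor (ih L s g) (ih L.succ (Nat.add s b) (Nat.add g (wt b)))) l

def un (M a : ℕ) : Bool := Nat.ble 1 a && !Nat.beq a 23 && !Nat.beq a 29 && !tb M a

def nxt (M : ℕ) : ℕ → ℕ := Nat.rec (fun i => i) (fun _ r i => cond (un M i) i (r i.succ)) 40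

def kill (n t u : ℕ) : Bool :=
  Nat.blt u t && !Nat.beq (Nat.add u 23) n && !Nat.beq (Nat.add u 29) n

def hd (q : List ℕ) : ℕ := List.casesOn q 1 fun x _ => x

def dfs (c K rem : ℕ) : List ℕ → ℕ → ℕ → ℕ → Bool :=
  Nat.rec (leaf c K) (fun rem ih q _ _ _ => force (msk c K q 0 0 0) fun M =>
    force (nxt M 1) fun u1 => force (nxt M u1.succ) fun u2 => force (nxt M u2.succ) fun u3 =>
      Nat.blt u1 u2 && Nat.blt u2 u3 && un M u1 && un M u2 && un M u3 &&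
      force (Nat.add c (sumL q)) fun s => allN u3.succ fun t => Nat.blt t (hd q) ||
        (Nat.beq rem 0 && (kill (Nat.add s t) t u1 || kill (Nat.add s t) t u2)) ||
        ih (t :: q) u1 u2 u3) rem

def allT (P : List ℕ → Bool) (k : ℕ) : ℕ → List ℕ → Bool :=
  Nat.rec (fun _ q => P q) (fun k ih rem q => allN rem.succ fun t =>
    Nat.blt t (hd q) || Nat.blt rem (Nat.mul t k.succ) ||
      force (Nat.sub rem t) fun r => ih r (t :: q)) k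

def isort (l : List ℕ) : List ℕ := l.insertionSort (· ≤ ·)

def ty : List (ℕ × List ℕ) :=
  [(1, [1, 1, 2]), (1, [1, 1, 4]), (1, [1, 1, 6]), (1, [1, 2, 3]), (1, [1, 2, 4]), (1, [1, 2, 6]),
  (1, [1, 3, 4]), (1, [1, 4, 6]), (2, [1, 1, 1, 2]), (2, [1, 1, 1, 2, 4]), (2, [1, 1, 1, 2, 6]),
  (2, [1, 1, 1, 4]), (2, [1, 1, 1, 4, 6]), (2, [1, 1, 2, 2]), (2, [1, 1, 2, 2, 3]), (2, [1, 1, 2,
  2, 6]), (2, [1, 1, 2, 3]), (2, [1, 1, 2, 3, 4]), (2, [1, 1, 2, 3, 6]), (2, [1, 1, 2, 4]), (2,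
  [1, 1, 2, 4, 6]), (2, [1, 1, 2, 6]), (2, [1, 1, 3, 4]), (2, [1, 1, 3, 4, 6]), (2, [1, 1, 4, 6]),
  (2, [1, 2, 2, 3]), (2, [1, 2, 2, 3, 4]), (2, [1, 2, 3, 4]), (2, [1, 2, 3, 4, 6]), (3, [1, 1, 1,
  1, 2]), (3, [1, 1, 1, 1, 2, 2]), (3, [1, 1, 1, 1, 2, 2, 6]), (3, [1, 1, 1, 1, 2, 4]), (3, [1, 1,
  1, 1, 2, 4, 6]), (3, [1, 1, 1, 1, 2, 6]), (3, [1, 1, 1, 1, 4]), (3, [1, 1, 1, 1, 4, 6]), (3, [1,
  1, 1, 2, 2]), (3, [1, 1, 1, 2, 2, 3]), (3, [1, 1, 1, 2, 2, 3, 4]), (3, [1, 1, 1, 2, 2, 3, 4,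
  6]), (3, [1, 1, 1, 2, 2, 3, 6]), (3, [1, 1, 1, 2, 2, 4]), (3, [1, 1, 1, 2, 2, 4, 6]), (3, [1, 1,
  1, 2, 2, 6]), (3, [1, 1, 1, 2, 3, 4]), (3, [1, 1, 1, 2, 3, 4, 6]), (3, [1, 1, 1, 2, 3, 6]), (3,
  [1, 1, 1, 2, 4]), (3, [1, 1, 1, 2, 4, 6]), (3, [1, 1, 1, 2, 6]), (3, [1, 1, 1, 4, 6]), (3, [1,
  1, 2, 2, 2, 3]), (3, [1, 1, 2, 2, 3]), (3, [1, 1, 2, 2, 3, 3]), (3, [1, 1, 2, 2, 3, 4]), (3, [1,
  1, 2, 2, 3, 4, 6]), (3, [1, 1, 2, 2, 3, 6])]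

def Yl (c : ℕ) (l : List ℕ) : Bool := l.length ≤ c + 1 || ty.contains (c, isort l)

def certs : List (ℕ × List ℕ × List (ℕ × List ℕ)) :=
  [(1, [1, 1, 2], [(0, [0, 1, 0]), (0, [0, 0, 2])]), (1, [1, 1, 4], [(0, [0, 1, 0]), (0, [0, 0,
  2]), (1, [1, 1, 0])]), (1, [1, 1, 6], [(0, [0, 1, 0]), (0, [0, 0, 2]), (1, [1, 1, 0]), (0, [0,
  0, 4])]), (1, [1, 2, 3], [(0, [1, 0, 0]), (0, [0, 0, 2]), (0, [0, 0, 3])]), (1, [1, 2, 4], [(0,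
  [0, 0, 1]), (0, [0, 2, 0]), (0, [0, 0, 3]), (0, [0, 0, 4])]), (1, [1, 2, 6], [(0, [0, 1, 0]),
  (0, [0, 0, 2]), (0, [0, 0, 3]), (1, [1, 2, 0]), (0, [0, 0, 5])]), (1, [1, 3, 4], [(0, [0, 1,
  0]), (0, [0, 0, 2]), (0, [0, 3, 0]), (0, [0, 0, 4])]), (1, [1, 4, 6], [(0, [1, 0, 0]), (0, [0,
  2, 0]), (0, [0, 0, 3]), (0, [0, 0, 4]), (0, [0, 0, 5]), (0, [0, 0, 6])]), (2, [1, 1, 1, 2], [(0,
  [0, 0, 1, 0]), (0, [0, 0, 0, 2]), (1, [0, 1, 1, 0])]), (2, [1, 1, 1, 2, 4], [(0, [0, 0, 1, 0,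
  0]), (0, [0, 0, 0, 2, 0]), (1, [0, 1, 1, 0, 0]), (0, [0, 0, 0, 0, 4]), (1, [0, 1, 1, 2, 0])]),
  (2, [1, 1, 1, 2, 6], [(0, [0, 0, 1, 0, 0]), (0, [0, 0, 0, 0, 2]), (1, [0, 1, 1, 0, 0]), (1, [0,
  0, 1, 2, 0]), (1, [0, 1, 1, 0, 2]), (0, [0, 0, 0, 0, 6])]), (2, [1, 1, 1, 4], [(0, [0, 0, 1,
  0]), (0, [0, 0, 0, 2]), (1, [0, 1, 1, 0]), (0, [0, 0, 0, 4])]), (2, [1, 1, 1, 4, 6], [(0, [0, 0,
  1, 0, 0]), (0, [0, 0, 0, 2, 0]), (1, [0, 1, 1, 0, 0]), (0, [0, 0, 0, 0, 4]), (1, [0, 1, 1, 2,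
  0]), (0, [0, 0, 0, 0, 6]), (1, [0, 1, 1, 0, 4])]), (2, [1, 1, 2, 2], [(0, [0, 0, 0, 1]), (0, [0,
  0, 0, 2]), (1, [0, 0, 0, 2]), (1, [0, 1, 0, 2])]), (2, [1, 1, 2, 2, 3], [(0, [0, 1, 0, 0, 0]),
  (0, [0, 0, 0, 2, 0]), (0, [0, 0, 0, 0, 3]), (1, [0, 1, 0, 2, 0]), (1, [1, 1, 0, 2, 0])]), (2,
  [1, 1, 2, 2, 6], [(0, [0, 0, 0, 1, 0]), (0, [0, 0, 0, 2, 0]), (0, [0, 0, 0, 0, 3]), (1, [0, 1,
  0, 2, 0]), (1, [0, 0, 2, 2, 0]), (0, [0, 0, 0, 0, 6]), (1, [0, 1, 0, 2, 3])]), (2, [1, 1, 2, 3],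
  [(0, [0, 0, 0, 1]), (0, [0, 0, 0, 2]), (0, [0, 0, 0, 3]), (1, [0, 0, 0, 3])]), (2, [1, 1, 2, 3,
  4], [(0, [0, 1, 0, 0, 0]), (0, [0, 0, 0, 0, 2]), (0, [0, 0, 0, 3, 0]), (0, [0, 0, 0, 0, 4]), (1,
  [0, 1, 0, 3, 0]), (1, [0, 0, 2, 3, 0])]), (2, [1, 1, 2, 3, 6], [(0, [0, 0, 0, 1, 0]), (0, [0, 0,
  0, 0, 2]), (0, [0, 0, 0, 3, 0]), (0, [0, 0, 0, 0, 4]), (1, [0, 1, 0, 3, 0]), (0, [0, 0, 0, 0,
  6]), (1, [0, 1, 0, 3, 2])]), (2, [1, 1, 2, 4], [(0, [0, 0, 0, 1]), (0, [0, 0, 0, 2]), (0, [0, 0,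
  0, 3]), (0, [0, 0, 0, 4]), (1, [0, 0, 0, 4])]), (2, [1, 1, 2, 4, 6], [(0, [0, 0, 0, 1, 0]), (0,
  [0, 0, 0, 2, 0]), (0, [0, 0, 0, 0, 3]), (0, [0, 0, 0, 4, 0]), (0, [0, 0, 0, 0, 5]), (0, [0, 0,
  0, 0, 6]), (1, [0, 0, 2, 4, 0]), (1, [0, 1, 0, 0, 6])]), (2, [1, 1, 2, 6], [(0, [0, 1, 0, 0]),
  (0, [0, 0, 0, 2]), (0, [0, 0, 0, 3]), (0, [0, 0, 0, 4]), (0, [0, 0, 0, 5]), (0, [0, 0, 0, 6])]),
  (2, [1, 1, 3, 4], [(0, [0, 0, 1, 0]), (0, [0, 0, 0, 2]), (0, [0, 0, 3, 0]), (0, [0, 0, 0, 4]),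
  (1, [0, 1, 3, 0])]), (2, [1, 1, 3, 4, 6], [(0, [0, 0, 1, 0, 0]), (0, [0, 0, 0, 2, 0]), (0, [0,
  0, 3, 0, 0]), (0, [0, 0, 0, 0, 4]), (1, [0, 1, 3, 0, 0]), (0, [0, 0, 0, 0, 6]), (1, [0, 1, 1, 4,
  0]), (1, [0, 0, 3, 4, 0])]), (2, [1, 1, 4, 6], [(0, [0, 1, 0, 0]), (0, [0, 0, 2, 0]), (0, [0, 0,
  0, 3]), (0, [0, 0, 0, 4]), (0, [0, 0, 0, 5]), (0, [0, 0, 0, 6]), (1, [0, 0, 0, 6])]), (2, [1, 2,
  2, 3], [(0, [0, 0, 1, 0]), (0, [0, 0, 0, 2]), (0, [0, 0, 0, 3]), (1, [1, 0, 2, 0]), (1, [0, 0,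
  1, 3])]), (2, [1, 2, 2, 3, 4], [(0, [0, 0, 1, 0, 0]), (0, [0, 0, 2, 0, 0]), (0, [0, 0, 0, 0,
  3]), (0, [0, 0, 0, 0, 4]), (1, [0, 2, 2, 0, 0]), (1, [0, 0, 2, 3, 0]), (1, [0, 0, 2, 0, 4])]),
  (2, [1, 2, 3, 4], [(0, [0, 1, 0, 0]), (0, [0, 0, 0, 2]), (0, [0, 0, 0, 3]), (0, [0, 0, 0, 4]),
  (1, [0, 0, 0, 4]), (1, [0, 2, 3, 0])]), (2, [1, 2, 3, 4, 6], [(0, [0, 1, 0, 0, 0]), (0, [0, 0,
  2, 0, 0]), (0, [0, 0, 0, 3, 0]), (0, [0, 0, 0, 0, 4]), (0, [0, 0, 0, 0, 5]), (0, [0, 0, 0, 0,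
  6]), (1, [1, 2, 3, 0, 0]), (1, [0, 0, 3, 4, 0]), (1, [0, 1, 3, 4, 0])]), (3, [1, 1, 1, 1, 2],
  [(0, [0, 0, 0, 1, 0]), (0, [0, 0, 0, 0, 2]), (1, [0, 0, 1, 1, 0]), (1, [0, 0, 0, 1, 2])]), (3,
  [1, 1, 1, 1, 2, 2], [(0, [0, 0, 0, 1, 0, 0]), (0, [0, 0, 0, 0, 0, 2]), (1, [0, 0, 1, 1, 0, 0]),
  (1, [0, 0, 0, 1, 0, 2]), (1, [0, 0, 1, 1, 0, 2])]), (3, [1, 1, 1, 1, 2, 2, 6], [(0, [0, 0, 0, 1,
  0, 0, 0]), (0, [0, 0, 0, 0, 0, 2, 0]), (1, [0, 0, 1, 1, 0, 0, 0]), (1, [0, 0, 0, 1, 0, 2, 0]),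
  (1, [0, 0, 1, 1, 0, 2, 0]), (0, [0, 0, 0, 0, 0, 0, 6]), (2, [0, 1, 1, 1, 0, 2, 0]), (2, [0, 0,
  1, 1, 2, 2, 0])]), (3, [1, 1, 1, 1, 2, 4], [(0, [0, 0, 0, 1, 0, 0]), (0, [0, 0, 0, 0, 0, 2]),
  (1, [0, 0, 1, 1, 0, 0]), (0, [0, 0, 0, 0, 0, 4]), (1, [0, 0, 1, 1, 0, 2]), (1, [0, 0, 0, 1, 0,
  4])]), (3, [1, 1, 1, 1, 2, 4, 6], [(0, [0, 0, 0, 1, 0, 0, 0]), (0, [0, 0, 0, 0, 0, 2, 0]), (1,
  [0, 0, 1, 1, 0, 0, 0]), (0, [0, 0, 0, 0, 0, 4, 0]), (1, [0, 0, 1, 1, 0, 2, 0]), (0, [0, 0, 0, 0,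
  0, 0, 6]), (1, [0, 0, 1, 1, 0, 4, 0]), (1, [0, 0, 0, 1, 0, 0, 6]), (1, [0, 0, 1, 1, 0, 0, 6])]),
  (3, [1, 1, 1, 1, 2, 6], [(0, [0, 0, 0, 1, 0, 0]), (0, [0, 0, 0, 0, 0, 2]), (1, [0, 0, 1, 1, 0,
  0]), (0, [0, 0, 0, 0, 0, 4]), (1, [0, 0, 1, 1, 0, 2]), (0, [0, 0, 0, 0, 0, 6]), (1, [0, 0, 1, 1,
  0, 4])]), (3, [1, 1, 1, 1, 4], [(0, [0, 0, 0, 1, 0]), (0, [0, 0, 0, 0, 2]), (1, [0, 0, 1, 1,
  0]), (0, [0, 0, 0, 0, 4]), (1, [0, 0, 1, 1, 2])]), (3, [1, 1, 1, 1, 4, 6], [(0, [0, 0, 0, 1, 0,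
  0]), (0, [0, 0, 0, 0, 2, 0]), (1, [0, 0, 1, 1, 0, 0]), (0, [0, 0, 0, 0, 0, 4]), (1, [0, 0, 1, 1,
  2, 0]), (0, [0, 0, 0, 0, 0, 6]), (1, [0, 0, 1, 1, 0, 4]), (1, [0, 0, 0, 1, 0, 6])]), (3, [1, 1,
  1, 2, 2], [(0, [0, 0, 0, 0, 1]), (0, [0, 0, 0, 0, 2]), (1, [0, 0, 0, 0, 2]), (1, [0, 0, 1, 0,
  2]), (1, [0, 0, 0, 2, 2])]), (3, [1, 1, 1, 2, 2, 3], [(0, [0, 0, 1, 0, 0, 0]), (0, [0, 0, 0, 0,
  0, 2]), (0, [0, 0, 0, 0, 0, 3]), (1, [0, 0, 1, 0, 2, 0]), (1, [0, 0, 1, 0, 0, 3]), (1, [0, 0, 0,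
  0, 2, 3])]), (3, [1, 1, 1, 2, 2, 3, 4], [(0, [0, 0, 1, 0, 0, 0, 0]), (0, [0, 0, 0, 0, 2, 0, 0]),
  (0, [0, 0, 0, 0, 0, 3, 0]), (0, [0, 0, 0, 0, 0, 0, 4]), (1, [0, 1, 1, 0, 2, 0, 0]), (1, [0, 0,
  0, 0, 2, 3, 0]), (1, [0, 0, 1, 0, 2, 3, 0]), (1, [0, 0, 1, 0, 2, 0, 4])]), (3, [1, 1, 1, 2, 2,
  3, 4, 6], [(0, [0, 0, 1, 0, 0, 0, 0, 0]), (0, [0, 0, 0, 0, 2, 0, 0, 0]), (0, [0, 0, 0, 0, 0, 3,
  0, 0]), (0, [0, 0, 0, 0, 0, 0, 4, 0]), (1, [0, 1, 1, 0, 2, 0, 0, 0]), (0, [0, 0, 0, 0, 0, 0, 0,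
  6]), (1, [0, 0, 1, 0, 2, 3, 0, 0]), (1, [0, 0, 1, 0, 2, 0, 4, 0]), (1, [0, 0, 1, 0, 0, 3, 4,
  0]), (1, [0, 0, 1, 0, 2, 0, 0, 6]), (2, [0, 1, 1, 2, 2, 3, 0, 0])]), (3, [1, 1, 1, 2, 2, 3, 6],
  [(0, [0, 0, 1, 0, 0, 0, 0]), (0, [0, 0, 0, 0, 0, 0, 2]), (0, [0, 0, 0, 0, 0, 3, 0]), (1, [0, 0,
  1, 0, 2, 0, 0]), (1, [0, 0, 1, 0, 0, 3, 0]), (0, [0, 0, 0, 0, 0, 0, 6]), (1, [0, 0, 1, 0, 2, 3,
  0]), (1, [0, 0, 1, 0, 0, 0, 6]), (1, [0, 1, 1, 0, 0, 0, 6])]), (3, [1, 1, 1, 2, 2, 4], [(0, [0,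
  0, 0, 0, 0, 1]), (0, [0, 0, 0, 0, 2, 0]), (0, [0, 0, 0, 0, 0, 3]), (0, [0, 0, 0, 0, 0, 4]), (1,
  [0, 0, 0, 2, 2, 0]), (1, [0, 0, 1, 0, 0, 4]), (1, [0, 0, 0, 0, 2, 4])]), (3, [1, 1, 1, 2, 2, 4,
  6], [(0, [0, 0, 0, 0, 0, 1, 0]), (0, [0, 0, 0, 0, 2, 0, 0]), (0, [0, 0, 0, 0, 0, 0, 3]), (0, [0,
  0, 0, 0, 0, 4, 0]), (1, [0, 0, 0, 2, 2, 0, 0]), (0, [0, 0, 0, 0, 0, 0, 6]), (1, [0, 0, 0, 0, 2,
  4, 0]), (1, [0, 0, 1, 0, 2, 4, 0]), (1, [0, 0, 0, 0, 2, 0, 6]), (1, [0, 0, 1, 0, 2, 0, 6])]),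
  (3, [1, 1, 1, 2, 2, 6], [(0, [0, 0, 0, 0, 1, 0]), (0, [0, 0, 0, 0, 0, 2]), (0, [0, 0, 0, 0, 0,
  3]), (1, [0, 0, 1, 0, 2, 0]), (0, [0, 0, 0, 0, 0, 5]), (0, [0, 0, 0, 0, 0, 6]), (1, [0, 0, 1, 0,
  2, 3]), (1, [0, 0, 1, 0, 0, 6])]), (3, [1, 1, 1, 2, 3, 4], [(0, [0, 0, 0, 0, 1, 0]), (0, [0, 0,
  0, 0, 0, 2]), (0, [0, 0, 0, 0, 3, 0]), (1, [0, 0, 0, 0, 3, 0]), (1, [0, 0, 1, 0, 3, 0]), (1, [0,
  0, 0, 2, 3, 0]), (1, [0, 0, 1, 0, 1, 4])]), (3, [1, 1, 1, 2, 3, 4, 6], [(0, [0, 0, 0, 0, 1, 0,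
  0]), (0, [0, 0, 0, 0, 0, 2, 0]), (0, [0, 0, 0, 0, 3, 0, 0]), (0, [0, 0, 0, 0, 0, 0, 4]), (1, [0,
  0, 1, 0, 3, 0, 0]), (0, [0, 0, 0, 0, 0, 0, 6]), (1, [0, 0, 1, 0, 1, 4, 0]), (1, [0, 0, 0, 0, 3,
  4, 0]), (1, [0, 0, 1, 0, 3, 4, 0]), (1, [0, 0, 0, 0, 3, 0, 6])]), (3, [1, 1, 1, 2, 3, 6], [(0,
  [0, 0, 0, 0, 1, 0]), (0, [0, 0, 0, 0, 0, 2]), (0, [0, 0, 0, 0, 3, 0]), (0, [0, 0, 0, 0, 0, 4]),
  (1, [0, 0, 1, 0, 3, 0]), (1, [0, 0, 0, 0, 3, 2]), (1, [0, 0, 1, 0, 3, 2]), (1, [0, 0, 1, 0, 0,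
  6])]), (3, [1, 1, 1, 2, 4], [(0, [0, 0, 0, 1, 0]), (0, [0, 0, 0, 0, 2]), (0, [0, 0, 0, 0, 3]),
  (0, [0, 0, 0, 0, 4]), (1, [0, 0, 0, 0, 4]), (1, [0, 0, 1, 0, 4])]), (3, [1, 1, 1, 2, 4, 6], [(0,
  [0, 0, 0, 0, 1, 0]), (0, [0, 0, 0, 0, 2, 0]), (0, [0, 0, 0, 0, 0, 3]), (0, [0, 0, 0, 0, 0, 4]),
  (0, [0, 0, 0, 0, 0, 5]), (0, [0, 0, 0, 0, 0, 6]), (1, [0, 0, 0, 0, 0, 6]), (1, [0, 0, 1, 0, 0,
  6]), (1, [0, 0, 0, 2, 0, 6])]), (3, [1, 1, 1, 2, 6], [(0, [0, 0, 1, 0, 0]), (0, [0, 0, 0, 0,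
  2]), (1, [0, 0, 0, 0, 2]), (0, [0, 0, 0, 0, 4]), (0, [0, 0, 0, 0, 5]), (0, [0, 0, 0, 0, 6]), (1,
  [0, 0, 0, 0, 6])]), (3, [1, 1, 1, 4, 6], [(0, [0, 0, 1, 0, 0]), (0, [0, 0, 0, 2, 0]), (1, [0, 0,
  0, 2, 0]), (0, [0, 0, 0, 0, 4]), (0, [0, 0, 0, 0, 5]), (0, [0, 0, 0, 0, 6]), (1, [0, 0, 0, 0,
  6]), (1, [0, 0, 1, 0, 6])]), (3, [1, 1, 2, 2, 2, 3], [(0, [0, 0, 0, 0, 1, 0]), (0, [0, 0, 0, 0,
  2, 0]), (1, [0, 0, 0, 0, 2, 0]), (1, [0, 1, 0, 0, 2, 0]), (1, [0, 0, 0, 2, 2, 0]), (1, [0, 0, 0,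
  0, 2, 3]), (1, [0, 0, 0, 1, 2, 3])]), (3, [1, 1, 2, 2, 3], [(0, [0, 1, 0, 0, 0]), (0, [0, 0, 0,
  0, 2]), (0, [0, 0, 0, 0, 3]), (1, [0, 0, 0, 0, 3]), (1, [0, 0, 0, 1, 3]), (1, [0, 0, 0, 2,
  3])]), (3, [1, 1, 2, 2, 3, 3], [(0, [0, 0, 0, 0, 0, 1]), (0, [0, 0, 0, 0, 0, 2]), (0, [0, 0, 0,
  0, 0, 3]), (1, [0, 0, 0, 0, 0, 3]), (1, [0, 1, 0, 0, 0, 3]), (1, [0, 0, 0, 2, 0, 3]), (1, [0, 0,
  0, 0, 3, 3])]), (3, [1, 1, 2, 2, 3, 4], [(0, [0, 0, 0, 0, 0, 1]), (0, [0, 0, 0, 0, 0, 2]), (0,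
  [0, 0, 0, 0, 0, 3]), (0, [0, 0, 0, 0, 0, 4]), (1, [0, 0, 0, 0, 0, 4]), (1, [0, 0, 0, 2, 3, 0]),
  (1, [0, 0, 0, 2, 0, 4]), (1, [0, 0, 0, 0, 3, 4])]), (3, [1, 1, 2, 2, 3, 4, 6], [(0, [0, 0, 0, 1,
  0, 0, 0]), (0, [0, 0, 0, 0, 2, 0, 0]), (0, [0, 0, 0, 0, 0, 3, 0]), (0, [0, 0, 0, 0, 0, 4, 0]),
  (0, [0, 0, 0, 0, 0, 0, 5]), (0, [0, 0, 0, 0, 0, 0, 6]), (1, [0, 0, 0, 2, 0, 4, 0]), (1, [0, 0,
  0, 0, 3, 4, 0]), (1, [0, 0, 0, 1, 3, 4, 0]), (1, [0, 1, 0, 2, 0, 0, 6]), (1, [0, 0, 0, 0, 0, 4,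
  6])]), (3, [1, 1, 2, 2, 3, 6], [(0, [0, 0, 0, 1, 0, 0]), (0, [0, 0, 0, 0, 0, 2]), (0, [0, 0, 0,
  0, 0, 3]), (0, [0, 0, 0, 0, 0, 4]), (0, [0, 0, 0, 0, 0, 5]), (0, [0, 0, 0, 0, 0, 6]), (1, [0, 0,
  0, 0, 0, 6]), (1, [0, 1, 0, 0, 0, 6]), (1, [0, 0, 0, 2, 0, 6])])]

def okC (c : ℕ) (l : List ℕ) (a : ℕ) (x : ℕ × List ℕ) : Bool :=
  x.1 ≤ c && ((x.2.zip l).map fun y => sm (y.1, y.2 - y.1)) == l &&
    x.1 + ((x.2.zip l).map Prod.fst).sum == a && Yl x.1 (nz ((x.2.zip l).map Prod.fst)) &&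
    Yl (c - x.1) (nz ((x.2.zip l).map fun y => y.2 - y.1))

end

end Pool.Agent.H.MP_33d24b_co
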