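import Pool.Agent.H.MP_33d24b_co.B

namespace Pool.Agent.H.MP_33d24b_co

lemma c13 : allT (fun l => leaf 1 3 l 0 0 0) 3 26 [] = true := by decide +kernel

lemma c25 : allT (fun l => leaf 2 5 l 0 0 0) 5 24 [] = true := by decide +kernel

lemma c14 : dfs 1 4 4 [] 0 0 0 = true := by decide +kernel

lemma c26 : dfs 2 6 6 [] 0 0 0 = true := by decide +kernel

lemma cY : ((certs.map fun x => (x.1, x.2.1)) == ty && certs.all fun x => x.1 != 0 &&
    (List.range ((x.1 + x.2.1.sum) / 2)).all fun i =>
      okC x.1 x.2.1 (i + 1) (x.2.2.getD i (0, []))) = true := by decide +kernel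

end Pool.Agent.H.MP_33d24b_co
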