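import Pool.Agent.H.MP_33d24b_co.B

namespace Pool.Agent.H.MP_33d24b_co

lemma c38 : dfs 3 8 8 [] 0 0 0 = true := by decide +kernel

end Pool.Agent.H.MP_33d24b_co
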