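import Pool.Agent.H.MP_33d24b_co.C
import Pool.Agent.H.MP_33d24b_co.D

namespace Pool.Agent.H.MP_33d24b_co

open List

lemma force_eq (n : ℕ) (k : ℕ → Bool) : force n k = k n := by cases n <;> rfl

lemma allN_iff {n : ℕ} {f : ℕ → Bool} : allN n f = true ↔ ∀ i < n, f i = true := by
  induction n with
  | zero => simp [allN]
  | succ n ih =>
    show (allN n f && f n) = true ↔ _
    rw [Bool.and_eq_true, ih, Nat.forall_lt_succ_right]

lemma anyN_iff {n : ℕ} {f : ℕ → Bool} : anyN n f = true ↔ ∃ i < n, f i = true := by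
  induction n with
  | zero => simp [anyN]
  | succ n ih =>
    show (anyN n f || f n) = true ↔ _
    rw [Bool.or_eq_true, ih, Nat.exists_lt_succ_right]

lemma sumL_eq (l : List ℕ) : sumL l = l.sum := by
  induction l with
  | nil => rfl
  | cons b l ih => exact congrArg (b + ·) ih

def sw (l : List ℕ) : ℕ := (l.map wt).sum

lemma sig_eq (l : List ℕ) : sig l = sw l := by
  induction l with
  | nil => rfl
  | cons b l ih => exact congrArg (wt b + ·) ih

lemma tb_eq (m i : ℕ) : tb m i = m.testBit i := by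
  show Nat.beq (m >>> i &&& 1) 1 = (1 &&& m >>> i != 0)
  rw [Nat.and_one_is_mod, Nat.one_and_eq_mod_two]
  rcases Nat.mod_two_eq_zero_or_one (m >>> i) with h | h <;> rw [h] <;> rfl

noncomputable def Nl (c : ℕ) (l : List ℕ) : Bool := N c l.length l.sum (sw l)

lemma Nl_perm {c : ℕ} {l l' : List ℕ} (h : l.Perm l') : Nl c l = Nl c l' := by
  rw [Nl, Nl, sw, sw, h.length_eq, h.sum_eq, (h.map wt).sum_eq]

lemma N_lim {c L s g : ℕ} (h : N c L s g = true) : L ≤ lim c := by
  rcases c with _ | _ | _ | c <;> simp [N, lim] at h ⊢ <;> omega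

section
variable {test : ℕ → ℕ → ℕ → ℕ → Bool} {l : List ℕ} {sl rem k1 k2 g1 g2 b x y : ℕ}

lemma ex1 (h : ex test l sl rem k1 k2 g1 (g2 + wt b) = true) :
    ex test (b :: l) sl rem k1 (k2 + 1) g1 g2 = true := by
  show (force _ _ || _) = true
  rw [force_eq]
  exact Bool.or_eq_true_iff.2 (Or.inl h)

lemma ex2 (h : ex test l sl rem k1 k2 (g1 + wt b) g2 = true) :
    ex test (b :: l) sl (b + rem) (k1 + 1) k2 g1 g2 = true := by
  show (_ || ((_ && force _ _) || _)) = true
  rw [force_eq, force_eq]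
  refine Bool.or_eq_true_iff.2 (Or.inr (Bool.or_eq_true_iff.2 (Or.inl ?_)))
  rw [show Nat.sub (b + rem) b = rem from Nat.add_sub_cancel_left _ _]
  exact Bool.and_eq_true_iff.2 ⟨by simp, h⟩

lemma ex3 (hx : 0 < x) (hy : 0 < y) (h : ex test l sl rem k1 k2 (g1 + wt x) (g2 + wt y) = true) :
    ex test ((x + y) :: l) (sl + 1) (x + rem) (k1 + 1) (k2 + 1) g1 g2 = true := by
  show (_ || (_ || anyN _ _)) = true
  refine Bool.or_eq_true_iff.2 (Or.inr (Bool.or_eq_true_iff.2 (Or.inr (anyN_iff.2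
    ⟨x, by omega, ?_⟩))))
  show (_ && force _ _) = true
  rw [force_eq, force_eq, force_eq, show Nat.sub (x + rem) x = rem from Nat.add_sub_cancel_left _ _,
    show Nat.sub (x + y) x = y from Nat.add_sub_cancel_left _ _]
  exact Bool.and_eq_true_iff.2 ⟨by simp; omega, h⟩
end

lemma nz_zero (l : List ℕ) : nz (0 :: l) = nz l := rfl

lemma nz_pos {x : ℕ} (h : 0 < x) (l : List ℕ) : nz (x :: l) = x :: nz l := by
  simp [nz, h.ne']

lemma nz_sum (l : List ℕ) : (nz l).sum = l.sum := by
  induction l with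
  | nil => rfl
  | cons x l ih =>
    rcases x.eq_zero_or_pos with rfl | h
    · simp [nz_zero, ih]
    · simp [nz_pos h, ih]

lemma len_le : ∀ p : List (ℕ × ℕ), (∀ x ∈ p, 0 < sm x) →
    p.length + p.countP (fun x => x.1 != 0 && x.2 != 0) ≤
      (nz (p.map Prod.fst)).length + (nz (p.map Prod.snd)).length
  | [], _ => by simp [nz]
  | (x, y) :: p, h => by
    have := len_le p fun z hz => h z (mem_cons_of_mem _ hz)
    have h0 : 0 < x + y := h (x, y) mem_cons_self
    rcases x.eq_zero_or_pos with rfl | hx <;> rcases y.eq_zero_or_pos with rfl | hy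
    · omega
    · simp only [map_cons, nz_zero, nz_pos hy, length_cons, countP_cons]; simp; omega
    · simp only [map_cons, nz_zero, nz_pos hx, length_cons, countP_cons]; simp; omega
    · simp only [map_cons, nz_pos hx, nz_pos hy, length_cons, countP_cons]
      split_ifs <;> omega

lemma ex_of {test : ℕ → ℕ → ℕ → ℕ → Bool} : ∀ (p : List (ℕ × ℕ)) (sl k1 k2 g1 g2 : ℕ),
    (∀ x ∈ p, 0 < sm x) →
    sl + p.length = k1 + (nz (p.map Prod.fst)).length + (k2 + (nz (p.map Prod.snd)).length) →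
    test k1 k2 (g1 + sw (nz (p.map Prod.fst))) (g2 + sw (nz (p.map Prod.snd))) = true →
    ex test (p.map sm) sl (p.map Prod.fst).sum (k1 + (nz (p.map Prod.fst)).length)
      (k2 + (nz (p.map Prod.snd)).length) g1 g2 = true
  | [], _, _, _, _, _, _, _, h => h
  | (x, y) :: p, sl, k1, k2, g1, g2, h, h1, h2 => by
    have h' : ∀ z ∈ p, 0 < sm z := fun z hz => h z (mem_cons_of_mem _ hz)
    have := len_le p h'
    have h0 : 0 < x + y := h (x, y) mem_cons_self
    rcases x.eq_zero_or_pos with rfl | hx <;> rcases y.eq_zero_or_pos with rfl | hy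
    · omega
    · simp only [map_cons, nz_zero, nz_pos hy, length_cons, sum_cons, sm, zero_add, sw,
        ← add_assoc] at h1 h2 ⊢
      exact ex1 (ex_of p sl k1 k2 g1 _ h' (by omega) h2)
    · simp only [map_cons, nz_zero, nz_pos hx, length_cons, sum_cons, sm, add_zero, sw,
        ← add_assoc] at h1 h2 ⊢
      exact ex2 (ex_of p sl k1 k2 _ g2 h' (by omega) h2)
    · simp only [map_cons, nz_pos hx, nz_pos hy, length_cons, sum_cons, sm, sw,
        ← add_assoc] at h1 h2 ⊢
      obtain _ | sl := sl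
      · omega
      exact ex3 hx hy (ex_of p sl k1 k2 _ _ h' (by omega) h2)

def NC (c : ℕ) (l : List ℕ) : Prop :=
  (∀ x ∈ l, 0 < x) ∧ ∀ a, 0 < a → a < c + l.sum → ∃ c1 c2, ∃ p : List (ℕ × ℕ), c1 + c2 = c ∧
    p.map sm = l ∧ c1 + (p.map Prod.fst).sum = a ∧ Nl c1 (nz (p.map Prod.fst)) = true ∧
    Nl c2 (nz (p.map Prod.snd)) = true

lemma NC.perm {c : ℕ} {l l' : List ℕ} (h : NC c l) (e : l'.Perm l) : NC c l' := by
  refine ⟨fun x hx => h.1 x (e.subset hx), fun a h1 h2 => ?_⟩
  obtain ⟨c1, c2, p, a1, rfl, a3, a4, a5⟩ := h.2 a h1 (e.sum_eq ▸ h2)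
  obtain ⟨q, b1, b2⟩ := lift sm l' p e
  exact ⟨c1, c2, q, a1, b2, by rw [(b1.map _).sum_eq, a3],
    (Nl_perm ((b1.map _).filter _)).trans a4, (Nl_perm ((b1.map _).filter _)).trans a5⟩

lemma sum_sm (p : List (ℕ × ℕ)) :
    (p.map sm).sum = (p.map Prod.fst).sum + (p.map Prod.snd).sum := sum_map_add

lemma NC.good {c a : ℕ} {l : List ℕ} (h : NC c l) : badAt c l l.length l.sum a = false := by
  by_contra hb
  simp only [badAt, Bool.not_eq_false, Bool.and_eq_true, Nat.ble_eq, Nat.blt_eq, Nat.add_eq,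
    Bool.not_eq_true'] at hb
  obtain ⟨c1, c2, p, rfl, rfl, rfl, a4, a5⟩ := h.2 a hb.1.1 hb.1.2
  have hp : ∀ x ∈ p, 0 < sm x := fun x hx => h.1 _ (mem_map_of_mem hx)
  have l1 := N_lim a4
  have l2 := N_lim a5
  have l3 := len_le p hp
  refine absurd hb.2 (Bool.not_eq_false _ ▸ anyN_iff.2 ⟨c1, by omega, ?_⟩)
  have := ex_of (test := fun k1 k2 g1 g2 => N c1 (lim c1 - k1) (p.map Prod.fst).sum g1 &&
      N c2 (lim c2 - k2) (p.map Prod.snd).sum g2) p (lim c1 + lim c2 - p.length)
    (lim c1 - (nz (p.map Prod.fst)).length) (lim c2 - (nz (p.map Prod.snd)).length) 0 0 hp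
    (by omega) (by
      rw [Nat.sub_sub_self l1, Nat.sub_sub_self l2, zero_add, zero_add, ← nz_sum,
        ← nz_sum (p.map Prod.snd)]
      exact Bool.and_eq_true_iff.2 ⟨a4, a5⟩)
  rw [Nat.sub_add_cancel l1, Nat.sub_add_cancel l2] at this
  simp only [force_eq, Nat.sub_eq, Nat.add_eq, Nat.add_sub_cancel_left, sum_sm, length_map, this,
    Bool.and_true, Bool.and_eq_true, Nat.ble_eq]
  omega

lemma leaf_ok {c u1 u2 u3 : ℕ} {l : List ℕ} (h : NC c l) (h' : leaf c l.length l u1 u2 u3 = true) :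
    Nl c l = true := by
  simp only [leaf, force_eq, sumL_eq, sig_eq, h.good, Bool.or_false, Bool.or_eq_true,
    anyN_iff] at h'
  simpa [Nl] using h'

lemma bits_ok {c K L s g c1 : ℕ} (h1 : c1 ≤ c) (h2 : K ≤ L + lim (c - c1))
    (h3 : N c1 L s g = true) : (bits c K L s g).testBit (c1 + s) = true := by
  unfold bits
  have : c1 < c.succ := by omega
  generalize c.succ = n at this
  induction n with
  | zero => omega
  | succ n ih =>
    rcases Nat.lt_succ_iff_lt_or_eq.1 this with h | rfl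
    · have := ih h
      dsimp only at this ⊢
      cases (Nat.ble K (Nat.add L (lim (Nat.sub c n))) && N n L s g)
      · exact this
      · exact (Nat.testBit_or _ _ _).trans (by rw [this]; rfl)
    · have e : (Nat.ble K (Nat.add L (lim (Nat.sub c c1))) && N c1 L s g) = true := by
        simpa [h3] using h2
      dsimp only
      rw [e]
      refine (Nat.testBit_or _ _ _).trans ?_
      have : (Nat.shiftLeft 1 (Nat.add c1 s)).testBit (c1 + s) = true := by
        show (1 <<< (c1 + s)).testBit _ = true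
        rw [Nat.one_shiftLeft, Nat.testBit_two_pow_self]
      rw [this, Bool.or_true]

lemma msk_ok {c K i : ℕ} {T q : List ℕ} (h : T <+ q) : ∀ L s g,
    (bits c K (L + T.length) (s + T.sum) (g + sw T)).testBit i = true →
      (msk c K q L s g).testBit i = true := by
  induction h with
  | slnil => exact fun _ _ _ h => h
  | cons b _ ih =>
    exact fun L s g h => (Nat.testBit_or _ _ _).trans (by
      have := ih L s g h; unfold msk at this; rw [this]; rfl)
  | cons_cons b _ ih =>
    exact fun L s g h => (Nat.testBit_or _ _ _).trans (by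
      have := ih (L + 1) (s + b) (g + wt b) (by
        simpa [sw, add_assoc, add_comm 1] using h)
      exact Bool.or_eq_true_iff.2 (Or.inr this))

lemma nz_sub : ∀ p : List (ℕ × ℕ), (∀ x ∈ p, x.1 = 0 ∨ x.2 = 0) →
    nz (p.map Prod.fst) <+ p.map sm
  | [], _ => .slnil
  | (x, y) :: p, h => by
    have := nz_sub p fun z hz => h z (mem_cons_of_mem _ hz)
    rcases x.eq_zero_or_pos with rfl | hx
    · exact this.cons _
    · obtain rfl : y = 0 := (h (x, y) mem_cons_self).resolve_left hx.ne'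
      rw [map_cons, nz_pos hx]
      exact this.cons_cons _

lemma prune {c K a : ℕ} (hc : c = 1 ∧ K = 4 ∨ c = 2 ∧ K = 6 ∨ c = 3 ∧ K = 8) {q r : List ℕ}
    (h : NC c (q ++ r)) (hK : (q ++ r).length = K) (hr : r ≠ []) (ha : ∀ y ∈ r, a < y)
    (hu : un (msk c K q 0 0 0) a = true) :
    a + 23 = c + (q ++ r).sum ∨ a + 29 = c + (q ++ r).sum := by
  simp only [un, Bool.and_eq_true, Nat.ble_eq, Bool.not_eq_true', tb_eq] at hu
  obtain ⟨⟨⟨u1, u2⟩, u3⟩, u4⟩ := hu
  have u2 : a ≠ 23 := Nat.ne_of_beq_eq_false u2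
  have u3 : a ≠ 29 := Nat.ne_of_beq_eq_false u3
  obtain ⟨y, hy⟩ := exists_mem_of_ne_nil r hr
  obtain ⟨c1, c2, p, a1, a2, a3, a4, a5⟩ := h.2 a u1 (by
    have := ha y hy
    have := single_le_sum (fun _ _ => Nat.zero_le _) y (mem_append_right q hy)
    omega)
  have hp : ∀ x ∈ p, 0 < sm x := fun x hx => h.1 _ (a2 ▸ mem_map_of_mem hx)
  have l1 := N_lim a4
  have l2 := N_lim a5
  have l3 := len_le p hp
  have l4 : p.length = K := by rw [← hK, ← a2, length_map]
  have l5 := sum_sm p
  rw [a2] at l5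
  by_cases hn : ∀ x ∈ p, x.1 = 0 ∨ x.2 = 0
  · obtain ⟨p1, p2, rfl, rfl, rfl⟩ := map_eq_append_iff.1 a2
    have z : ∀ x ∈ p2, x.1 = 0 := fun x hx => (hn x (mem_append_right _ hx)).elim id fun h => by
      have := ha _ (mem_map_of_mem hx)
      have := single_le_sum (fun _ _ => Nat.zero_le _) x.1
        (mem_map_of_mem (f := Prod.fst) (mem_append_right p1 hx))
      unfold sm at *
      omega
    have e : nz ((p1 ++ p2).map Prod.fst) = nz (p1.map Prod.fst) := by
      rw [map_append, nz, filter_append, (filter_eq_nil_iff (l := p2.map Prod.fst)).2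
        (by simpa using fun a b h => z (a, b) h), append_nil, nz]
    rw [← nz_sum] at a3
    rw [e] at a3 a4 l3
    have := msk_ok (c := c) (K := K) (nz_sub p1 fun x hx => hn x (mem_append_left _ hx)) 0 0 0
      (by
        rw [zero_add, zero_add, zero_add]
        exact bits_ok (c1 := c1) (by omega) (by rw [show c - c1 = c2 by omega]; omega) a4)
    rw [a3, u4] at this
    exact absurd this (by simp)
  · have : 0 < p.countP fun x => x.1 != 0 && x.2 != 0 := by
      push Not at hn
      obtain ⟨x, hx, h1, h2⟩ := hn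
      exact countP_pos_iff.2 ⟨x, hx, by simp [h1, h2]⟩
    unfold Nl at a4 a5
    rw [nz_sum] at a4 a5
    rcases c1 with _ | _ | _ | _ | c1 <;> rcases c2 with _ | _ | _ | _ | c2 <;>
      simp only [lim] at l1 l2 <;> first | omega | (simp [N] at a4 a5; omega)

lemma dfs_succ (c K rem : ℕ) (q : List ℕ) (a b d : ℕ) : dfs c K (rem + 1) q a b d =
    force (msk c K q 0 0 0) fun M =>
    force (nxt M 1) fun u1 => force (nxt M u1.succ) fun u2 => force (nxt M u2.succ) fun u3 =>
      Nat.blt u1 u2 && Nat.blt u2 u3 && un M u1 && un M u2 && un M u3 &&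
      force (Nat.add c (sumL q)) fun s => allN u3.succ fun t => Nat.blt t (hd q) ||
        (Nat.beq rem 0 && (kill (Nat.add s t) t u1 || kill (Nat.add s t) t u2)) ||
        dfs c K rem (t :: q) u1 u2 u3 := rfl

lemma allT_succ (P : List ℕ → Bool) (k rem : ℕ) (q : List ℕ) : allT P (k + 1) rem q =
    allN rem.succ fun t => Nat.blt t (hd q) || Nat.blt rem (Nat.mul t k.succ) ||
      force (Nat.sub rem t) fun r => allT P k r (t :: q) := rfl

lemma dfs_ok {c K : ℕ} (hc : c = 1 ∧ K = 4 ∨ c = 2 ∧ K = 6 ∨ c = 3 ∧ K = 8) :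
    ∀ (r q : List ℕ) (u1 u2 u3 : ℕ), dfs c K r.length q u1 u2 u3 = true → (q ++ r).length = K →
      r.Pairwise (· ≤ ·) → (∀ y ∈ r, hd q ≤ y) → NC c (q ++ r) → Nl c (q ++ r) = true
  | [], q, u1, u2, u3, h, h1, _, _, h4 => by
    rw [append_nil] at h1 h4 ⊢
    subst h1
    exact leaf_ok h4 h
  | t :: r, q, _, _, _, h, h1, h2, h3, h4 => by
    rw [length_cons, dfs_succ] at h
    simp only [force_eq, Bool.and_eq_true, Nat.blt_eq, allN_iff, Bool.or_eq_true, sumL_eq,
      Nat.add_eq, Nat.beq_eq] at h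
    obtain ⟨⟨⟨⟨⟨b1, b2⟩, b3⟩, b4⟩, b5⟩, b6⟩ := h
    have pr := fun a (h : a < t) => prune (a := a) hc h4 h1 (by simp) fun y hy => by
      rcases mem_cons.1 hy with rfl | hy
      · exact h
      · exact h.trans_le (rel_of_pairwise_cons h2 hy)
    by_cases ht : nxt (msk c K q 0 0 0) (nxt (msk c K q 0 0 0) (nxt (msk c K q 0 0 0) 1).succ).succ
        < t
    · have := pr _ ht b5
      have := pr _ (by omega) b4
      have := pr _ (by omega) b3
      omega
    rcases b6 t (by omega) with (h | ⟨h, h'⟩) | h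
    · exact absurd (h3 t mem_cons_self) (by omega)
    · obtain rfl := length_eq_zero_iff.1 h
      have k : ∀ u, un (msk c K q 0 0 0) u = true → ¬ kill (c + q.sum + t) t u = true := by
        intro u hu hk
        simp only [kill, Bool.and_eq_true, Nat.blt_eq, Bool.not_eq_true', Nat.add_eq] at hk
        have := pr u hk.1.1 hu
        have := Nat.ne_of_beq_eq_false hk.1.2
        have := Nat.ne_of_beq_eq_false hk.2
        simp only [sum_append, sum_cons, sum_nil] at *
        omega
      exact absurd h' (not_or.2 ⟨k _ b3, k _ b4⟩)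
    · rw [Nl_perm perm_middle]
      exact dfs_ok hc r (t :: q) _ _ _ h (by simpa [add_assoc, add_comm 1] using h1) h2.of_cons
        (fun y hy => rel_of_pairwise_cons h2 hy) (h4.perm perm_middle.symm)

lemma allT_ok {P : List ℕ → Bool} : ∀ (r q : List ℕ) (s : ℕ), allT P r.length s q = true →
    r.Pairwise (· ≤ ·) → (∀ y ∈ r, hd q ≤ y) → r.sum ≤ s → P (r.reverse ++ q) = true
  | [], q, s, h, _, _, _ => h
  | t :: r, q, s, h, h2, h3, h4 => by
    rw [length_cons, allT_succ] at h
    simp only [force_eq, Nat.blt_eq, allN_iff, Bool.or_eq_true, Nat.mul_eq, Nat.sub_eq] at h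
    have := card_nsmul_le_sum r t fun y hy => rel_of_pairwise_cons h2 hy
    simp only [sum_cons, smul_eq_mul] at h4 this
    rcases h t (by omega) with (h | h) | h
    · exact absurd (h3 t mem_cons_self) (by omega)
    · rw [Nat.mul_succ, mul_comm] at h
      omega
    · rw [reverse_cons, append_assoc]
      exact allT_ok r (t :: q) _ h h2.of_cons (fun y hy => rel_of_pairwise_cons h2 hy) (by omega)

end Pool.Agent.H.MP_33d24b_co
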