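import Pool.Agent.H.MP_33d24b_co.E

namespace Pool.Agent.H.MP_33d24b_co

open List

lemma nz_mem {l : List ℕ} : ∀ x ∈ nz l, 0 < x := fun x hx => by
  simpa [Nat.pos_iff_ne_zero] using (mem_filter.1 hx).2

lemma long {c : ℕ} {l : List ℕ} (h : NC c l) (h1 : 2 ≤ l.length) :
    ∃ c1 c2, c1 + c2 = c ∧ l.length ≤ lim c1 + lim c2 := by
  have := card_nsmul_le_sum l 1 h.1
  obtain ⟨c1, c2, p, a1, rfl, -, a4, a5⟩ := h.2 1 one_pos (by simp at this; omega)
  have := N_lim a4
  have := N_lim a5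
  have := len_le p fun x hx => h.1 _ (mem_map_of_mem hx)
  exact ⟨c1, c2, a1, by rw [length_map]; omega⟩

lemma nec : ∀ f c l, Num f c l → c ≤ 3 → (c = 3 → (nz l).length ≤ 8) → Nl c (nz l) = true
  | 0, _, _, h, _, _ => h.elim
  | f + 1, c, l, h, h1, h2 => by
    have e : (isort (nz l)).Perm (nz l) := perm_insertionSort _ _
    have hs : (isort (nz l)).Pairwise (· ≤ ·) := pairwise_insertionSort _ _
    have hn := (num_nz.2 h).perm e
    rw [← Nl_perm e]
    rw [← e.length_eq] at h2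
    have hp : ∀ x ∈ isort (nz l), 0 < x := fun x hx => nz_mem x (e.subset hx)
    generalize isort (nz l) = m at *
    have nc : NC c m := ⟨hp, fun a a1 a2 => by
      obtain ⟨c1, c2, p, rfl, rfl, b3, b4, b5⟩ := hn.2 a a1 a2
      refine ⟨c1, c2, p, rfl, rfl, b3, nec f _ _ b4 (by omega) fun h => ?_,
        nec f _ _ b5 (by omega) fun h => ?_⟩ <;>
      exact (length_filter_le _ _).trans (by simpa using h2 (by omega))⟩
    have hh : ∀ y ∈ m, hd [] ≤ y := hp
    have rv : (m.reverse ++ []).Perm m := by simp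
    obtain rfl | rfl | rfl | rfl : c = 0 ∨ c = 1 ∨ c = 2 ∨ c = 3 := by omega
    · rcases m with _ | ⟨x, _ | ⟨y, m⟩⟩
      · rfl
      · rfl
      · have := rel_of_pairwise_cons (hn.1.resolve_left (by simp)) mem_cons_self
        have := hp x (by simp)
        have := hp y (by simp)
        omega
    · rcases (by omega : m.length ≤ 2 ∨ (m.length = 3 ∧ 27 ≤ m.sum) ∨
        (m.length = 3 ∧ m.sum ≤ 26) ∨ m.length = 4 ∨ 5 ≤ m.length) with k | k | k | k | k
      · show (_ || _) = true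
        simp [k]
      · show (_ || _) = true
        simp [k]
      · rw [← Nl_perm rv]
        exact leaf_ok (nc.perm rv) (by
          rw [rv.length_eq, k.1]; exact allT_ok m [] 26 (by rw [k.1]; exact c13) hs hh k.2)
      · exact dfs_ok (Or.inl ⟨rfl, rfl⟩) m [] 0 0 0 (by rw [k]; exact c14) k hs hh nc
      · obtain ⟨c1, c2, a1, a2⟩ := long nc (by omega)
        rcases c1 with _ | _ | c1 <;> rcases c2 with _ | _ | c2 <;>
          simp only [lim, Nat.rec_zero] at a2 <;> omega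
    · rcases (by omega : m.length ≤ 4 ∨ (m.length = 5 ∧ 25 ≤ m.sum) ∨
        (m.length = 5 ∧ m.sum ≤ 24) ∨ m.length = 6 ∨ 7 ≤ m.length) with k | k | k | k | k
      · show (_ || _) = true
        simp [k]
      · show (_ || _) = true
        simp [k]
      · rw [← Nl_perm rv]
        exact leaf_ok (nc.perm rv) (by
          rw [rv.length_eq, k.1]; exact allT_ok m [] 24 (by rw [k.1]; exact c25) hs hh k.2)
      · exact dfs_ok (Or.inr (Or.inl ⟨rfl, rfl⟩)) m [] 0 0 0 (by rw [k]; exact c26) k hs hh nc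
      · obtain ⟨c1, c2, a1, a2⟩ := long nc (by omega)
        rcases c1 with _ | _ | _ | c1 <;> rcases c2 with _ | _ | _ | c2 <;>
          simp only [lim, Nat.rec_zero] at a2 <;> omega
    · rcases (by have := h2 rfl; omega : m.length ≤ 7 ∨ m.length = 8) with k | k
      · show (_ || _) = true
        simp [k]
      · exact dfs_ok (Or.inr (Or.inr ⟨rfl, rfl⟩)) m [] 0 0 0 (by rw [k]; exact c38) k hs hh nc

lemma trace : ∀ (l : List ℕ) (c a : ℕ), l.length ≤ c + 1 → a ≤ c + l.sum →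
    ∃ c1 c2, ∃ p : List (ℕ × ℕ), c1 + c2 = c ∧ p.map sm = l ∧ c1 + (p.map Prod.fst).sum = a ∧
      (nz (p.map Prod.fst)).length ≤ c1 + 1 ∧ (nz (p.map Prod.snd)).length ≤ c2 + 1
  | [], c, a, _, h => ⟨a, c - a, [], by simp at h; omega, rfl, rfl, by simp [nz], by simp [nz]⟩
  | b :: t, c, a, h1, h2 => by
    by_cases h : a ≤ b
    · refine ⟨0, c, (a, b - a) :: t.map fun x => (0, x), by simp, ?_, ?_, ?_, ?_⟩
      · simp [sm, h, Function.comp_def]
      · simp [Function.comp_def]
      · simp only [nz, map_cons, map_map, Function.comp_def, map_const', filter_cons]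
        split_ifs <;> simp
      · exact (length_filter_le _ _).trans (by simpa using h1)
    · obtain _ | c := c
      · obtain rfl : t = [] := by simpa using h1
        simp at h2; omega
      obtain ⟨c1, c2, p, a1, a2, a3, a4, a5⟩ := trace t c (a - b - 1) (by simpa using h1)
        (by simp at h2; omega)
      refine ⟨c1 + 1, c2, (b, 0) :: p, by omega, by simp [sm, a2], by simp; omega, ?_, a5⟩
      simp only [nz, map_cons, filter_cons] at a4 ⊢
      split_ifs
      · simpa using a4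
      · omega

def SC (c : ℕ) (l : List ℕ) (a : ℕ) : Prop :=
  ∃ c1 c2, ∃ p : List (ℕ × ℕ), c1 + c2 = c ∧ p.map sm = l ∧ c1 + (p.map Prod.fst).sum = a ∧
    Yl c1 (nz (p.map Prod.fst)) = true ∧ Yl c2 (nz (p.map Prod.snd)) = true

lemma tab {c : ℕ} {l : List ℕ} (h : (c, l) ∈ ty) :
    c ≠ 0 ∧ ∀ a, 0 < a → a < c + l.sum → SC c l a := by
  have := cY
  simp only [Bool.and_eq_true, beq_iff_eq, all_eq_true, bne_iff_ne, mem_range] at this
  rw [← this.1] at h
  obtain ⟨x, hx, e⟩ := mem_map.1 h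
  obtain ⟨rfl, rfl⟩ := Prod.mk.inj e
  refine ⟨(this.2 x hx).1, ?_⟩
  have k : ∀ a, 0 < a → 2 * a ≤ x.1 + x.2.1.sum → SC x.1 x.2.1 a := fun a a1 a2 => by
    have := (this.2 x hx).2 (a - 1) (by omega)
    generalize x.2.2.getD (a - 1) (0, []) = z at this
    simp only [okC, Bool.and_eq_true, decide_eq_true_eq, beq_iff_eq] at this
    obtain ⟨⟨⟨⟨b1, b2⟩, b3⟩, b4⟩, b5⟩ := this
    refine ⟨z.1, x.1 - z.1, (z.2.zip x.2.1).map fun y => (y.1, y.2 - y.1), by omega, ?_, ?_, ?_,
      ?_⟩ <;> rw [map_map]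
    · exact b2
    · exact b3.trans (by omega)
    · exact b4
    · exact b5
  intro a a1 a2
  by_cases h : 2 * a ≤ x.1 + x.2.1.sum
  · exact k a a1 h
  · obtain ⟨c1, c2, p, b1, b2, b3, b4, b5⟩ := k (x.1 + x.2.1.sum - a) (by omega) (by omega)
    have := sum_sm p
    rw [b2] at this
    refine ⟨c2, c1, p.map Prod.swap, by omega, ?_, ?_, ?_, ?_⟩ <;> rw [map_map]
    · rw [← b2]; exact map_congr_left fun y _ => add_comm _ _
    · show c2 + (p.map Prod.snd).sum = a
      omega
    · exact b5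
    · exact b4

lemma suf : ∀ f c l, c + l.sum < f → Yl c l = true → Num f c l
  | 0, _, _, h, _ => by omega
  | f + 1, c, l, h, hy => by
    have k : ∀ l : List ℕ, c + l.sum < f + 1 → (c ≠ 0 ∨ l.Pairwise fun x y => x = 0 ∨ y = 0) →
        (∀ a, 0 < a → a < c + l.sum → SC c l a) → Num (f + 1) c l := fun l h h1 h2 =>
      ⟨h1, fun a a1 a2 => by
        obtain ⟨c1, c2, p, b1, b2, b3, b4, b5⟩ := h2 a a1 a2
        have := sum_sm p
        rw [b2] at this
        exact ⟨c1, c2, p, b1, b2, b3, num_nz.1 (suf f _ _ (by rw [nz_sum]; omega) b4),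
          num_nz.1 (suf f _ _ (by rw [nz_sum]; omega) b5)⟩⟩
    simp only [Yl, Bool.or_eq_true, decide_eq_true_eq, contains_iff_mem] at hy
    rcases hy with hy | hy
    · refine k l h ?_ fun a a1 a2 => ?_
      · rcases c with _ | c
        · rcases l with _ | ⟨x, _ | ⟨y, l⟩⟩ <;> simp at hy ⊢
        · simp
      · obtain ⟨c1, c2, p, b1, b2, b3, b4, b5⟩ := trace l c a hy a2.le
        exact ⟨c1, c2, p, b1, b2, b3, by simp [Yl, b4], by simp [Yl, b5]⟩
    · have e : (isort l).Perm l := perm_insertionSort _ _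
      exact (k _ (e.sum_eq ▸ h) (Or.inl (tab hy).1) (tab hy).2).perm e.symm

theorem main : {b : Fin 8 → ℕ | Monotone b ∧ (∀ i, 1 ≤ b i) ∧ RP (semistar 3 b)}.Finite ∧
    {b : Fin 8 → ℕ | Monotone b ∧ (∀ i, 1 ≤ b i) ∧ RP (semistar 3 b)}.Nonempty := by
  constructor
  · refine (Set.finite_Iic fun _ => 26).subset ?_
    rintro b ⟨-, h1, h2⟩ i
    obtain ⟨g, hg⟩ := (semi (by norm_num) b).1 h2
    have e : nz (ofFn b) = ofFn b := filter_eq_self.2 fun x hx => by
      obtain ⟨j, rfl⟩ := mem_ofFn.1 hx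
      have := h1 j
      simp; omega
    have := nec g 3 _ hg le_rfl fun _ => by rw [e, length_ofFn]
    rw [e, Nl, length_ofFn] at this
    have h3 := single_le_sum (fun _ _ => Nat.zero_le _) (b i) (mem_ofFn.2 ⟨i, rfl⟩)
    generalize sw (ofFn b) = z at this
    generalize (ofFn b).sum = s at this h3
    have : (Nat.beq s 20 || Nat.beq s 26) = true := this
    simp only [Bool.or_eq_true, Nat.beq_eq] at this
    show b i ≤ 26
    omega
  · exact ⟨![1, 1, 1, 2, 2, 3, 4, 6], by decide, by decide,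
      (semi (by norm_num) _).2 ⟨24, suf _ _ _ (by decide) (by decide +kernel)⟩⟩

end Pool.Agent.H.MP_33d24b_co
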